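import Mathlib

/-!
# Project LF (MP_c307ca_nt), part A: quantitative nondivergence for the curve (x, x², ..., x^d)

Goal of part A (`S_MEAS`): the set of `x ∈ [-R, R]` such that some `1 ≤ b ≤ B` has all of
`b x, b x², ..., b x^d` within `τ` of integers has measure at most `C (B τ^d)^θ`.
Proof after Kleinbock and Margulis, with dyadic intervals.

Notation: `n = d + 1`, integer vectors `v : Fin (d+1) → ℤ`, `h_x v = (a v_0, K (v_0 x^i - v_i))_{1≤i≤d}`.
-/

set_option autoImplicit false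

namespace Pool.Agent.Helper41.LF

open MeasureTheory Finset

/-- The vector `h_x v = (a v_0, K (v_0 x^i - v_i))`, `1 ≤ i ≤ d`. -/
noncomputable def hx (d : ℕ) (a K x : ℝ) (v : Fin (d + 1) → ℤ) : Fin (d + 1) → ℝ :=
  fun i => if i = 0 then a * (v 0 : ℝ) else K * ((v 0 : ℝ) * x ^ (i : ℕ) - (v i : ℝ))

/-- An integer vector as a rational vector. -/
def toQ {n : ℕ} (v : Fin n → ℤ) : Fin n → ℚ := fun i => (v i : ℚ)

/-- The minor with columns `r` of the matrix with rows `h_x (β k)`. -/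
noncomputable def mnr {d j : ℕ} (a K x : ℝ) (β : Fin j → Fin (d + 1) → ℤ)
    (r : Fin j → Fin (d + 1)) : ℝ :=
  Matrix.det (Matrix.of fun (k l : Fin j) => hx d a K x (β k) (r l))

/-- The sum of the absolute values of all minors of the matrix with rows `h_x (β k)`. -/
noncomputable def psi {d j : ℕ} (a K : ℝ) (β : Fin j → Fin (d + 1) → ℤ) (x : ℝ) : ℝ :=
  ∑ r : Fin j → Fin (d + 1), |mnr a K x β r|

/-- The sum of the absolute values of the integer minors of `β`. -/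
def wt {d j : ℕ} (β : Fin j → Fin (d + 1) → ℤ) : ℕ :=
  ∑ r : Fin j → Fin (d + 1), (Matrix.det (Matrix.of fun (k l : Fin j) => β k (r l))).natAbs

/-- `β` is a tuple of integer vectors which is a basis of the rational subspace `W`. -/
def IsTup {d j : ℕ} (W : Submodule ℚ (Fin (d + 1) → ℚ)) (β : Fin j → Fin (d + 1) → ℤ) : Prop :=
  LinearIndependent ℚ (fun k => toQ (β k)) ∧
    Submodule.span ℚ (Set.range fun k => toQ (β k)) = W

/-- A tuple of minimal weight. -/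
def MinTup {d j : ℕ} (W : Submodule ℚ (Fin (d + 1) → ℚ)) (β : Fin j → Fin (d + 1) → ℤ) : Prop :=
  IsTup W β ∧ ∀ β' : Fin j → Fin (d + 1) → ℤ, IsTup W β' → wt β ≤ wt β'

/-- `l x^i` is within `τ` of an integer for all `1 ≤ i ≤ d`. -/
def Near (d : ℕ) (τ x : ℝ) (l : ℕ) : Prop :=
  ∀ i : Fin d, ∃ s : ℤ, |(l : ℝ) * x ^ ((i : ℕ) + 1) - s| ≤ τ

/-- PACKET NZM. Linearly independent rational vectors have a nonzero minor.
PROOF. Let `A` be the `j × n` matrix with rows `β k`. Its rows are independent, so its rank is `j`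
(`LinearIndependent.rank_matrix`), so the column space has dimension `j` (`Matrix.rank_transpose` or
`Matrix.rank_eq_finrank_span_cols`), i.e. the columns span `ℚ^j`. Choose `j` of the columns forming
a basis of `ℚ^j` (e.g. `exists_linearIndependent` on the range of the columns gives an independent
subset with the same span, of cardinality `j`; enumerate it by `Fin j`). The square submatrix with
these columns has independent columns so it is a unit, and its determinant is nonzero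
(`Matrix.linearIndependent_rows_iff_isUnit`, `Matrix.isUnit_iff_isUnit_det`). -/
def S_NZM : Prop := ∀ (j n : ℕ) (β : Fin j → Fin n → ℚ), LinearIndependent ℚ β →
  ∃ r : Fin j → Fin n, Matrix.det (Matrix.of fun (k l : Fin j) => β k (r l)) ≠ 0

/-- PACKET TUP. Every rational subspace has a tuple of minimal weight.
PROOF. Take a basis `b : Fin (finrank) → W` (`Module.finBasis`), for each `k` a positive integer
`m_k` with `m_k b_k` integral (product of the denominators of the entries); the integer vectors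
`β_k` with `toQ β_k = m_k b_k` form a tuple (`IsTup`): independence by `LinearIndependent.units_smul`
or directly, span: each `b_k` is a multiple of `toQ β_k` and conversely. So the set of natural numbers
`{wt β | IsTup W β}` is nonempty; take a minimal one (`Nat.find` or `WellFounded.min`). -/
def S_TUP : Prop := ∀ (d : ℕ) (W : Submodule ℚ (Fin (d + 1) → ℚ)),
  ∃ β : Fin (Module.finrank ℚ W) → Fin (d + 1) → ℤ, MinTup W β

/-- PACKET REL (may assume `S_NZM`). A tuple of minimal weight has the smallest `psi`.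
PROOF. `subst` the equality `j' = j`. As `toQ (β' k) ∈ W = span (toQ β)`, there is a rational matrix
`A` with `toQ (β' k) = ∑ l, A k l • toQ (β l)`. Then `det (β'_k (r l)) = det A * det (β_k (r l))` in `ℚ`
for each `r` (the matrix is a product) so `(wt β' : ℚ) = |det A| * wt β`; `hx` is linear in the vector
(over the rationals, coordinatewise), so `hx d a K x (β' k) i = ∑ l, (A k l : ℝ) * hx d a K x (β l) i` and
`mnr a K x β' r = det A * mnr a K x β r`, `psi a K β' x = |det A| * psi a K β x`. The `j` independent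
vectors `toQ (β' k)` lie in `W`, which has dimension `j`, so they span it
(`LinearIndependent.span_eq_top_of_card_eq_finrank` or `Submodule.eq_of_le_of_finrank_eq`) and
`IsTup W β'`; minimality gives `wt β ≤ wt β' = |det A| * wt β`, and `wt β > 0` by `S_NZM` (cast the minor
to `ℚ`), so `|det A| ≥ 1`. As `psi ≥ 0` this gives the claim. -/
def S_REL : Prop := ∀ (d j j' : ℕ) (a K : ℝ) (W : Submodule ℚ (Fin (d + 1) → ℚ))
  (β : Fin j → Fin (d + 1) → ℤ) (β' : Fin j' → Fin (d + 1) → ℤ), j' = j → MinTup W β →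
  LinearIndependent ℚ (fun k => toQ (β' k)) → (∀ k, toQ (β' k) ∈ W) →
  ∀ x : ℝ, psi a K β x ≤ psi a K β' x

/-- PACKET LAP. Laplace expansion.
PROOF. `Matrix.det_succ_row_zero`: `mnr (Fin.cons v β) r = ∑ l, (-1)^l * hx v (r l) * mnr β (r ∘ l.succAbove)`.
Hence `|mnr (cons v β) r| ≤ M ∑ l, |mnr β (r ∘ l.succAbove)|`. Sum over `r : Fin (j+1) → Fin (d+1)`: for fixed
`l` the map `r ↦ (r l, r ∘ l.succAbove)` is a bijection onto `Fin (d+1) × (Fin j → Fin (d+1))`
(`Fin.insertNthEquiv`), so `∑ r, |mnr β (r ∘ l.succAbove)| = (d+1) * psi β x`. Sum over the `j + 1`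
values of `l`. (`M ≥ 0` follows from the hypothesis at `i = 0`.) -/
def S_LAP : Prop := ∀ (d j : ℕ) (a K x M : ℝ) (β : Fin j → Fin (d + 1) → ℤ) (v : Fin (d + 1) → ℤ),
  (∀ i, |hx d a K x v i| ≤ M) →
  psi a K (Fin.cons v β : Fin (j + 1) → Fin (d + 1) → ℤ) x ≤ (j + 1) * (d + 1) * M * psi a K β x

/-- PACKET ONF. The full rank case.
PROOF. Take `r = id`. The matrix `(hx (β k) l)_{k,l}` is `(β k i)_{k,i}` times the matrix `Mx` with
`Mx 0 0 = a`, `Mx 0 l = K x^l` (`l ≥ 1`), `Mx l l = -K` (`l ≥ 1`) and all other entries `0`. `Mx` is upper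
triangular, so `det Mx = a (-K)^d` (`Matrix.det_of_upperTriangular`, `Fin.prod_univ_succ`). The determinant of
the integer matrix `β` is nonzero (independent rows over `ℚ`), so its absolute value is at least 1. So
`|mnr id| ≥ a K^d ≥ 1`. -/
def S_ONF : Prop := ∀ (d : ℕ) (a K : ℝ) (β : Fin (d + 1) → Fin (d + 1) → ℤ), 0 < a → 0 < K →
  1 ≤ a * K ^ d → LinearIndependent ℚ (fun k => toQ (β k)) → ∀ x : ℝ, 1 ≤ psi a K β x

/-- PACKET ONP (may assume `S_NZM`). The case of rank `j ≤ d`.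
PROOF. Let `W` be the span of `toQ (β k)`, of dimension `j ≤ d`. The vectors `e_m = (1, m, m², ..., m^d)`,
`m = 0, ..., d`, are independent (`Matrix.vandermonde`, `Matrix.det_vandermonde_ne_zero_iff`), so not all of
them lie in `W`; take `m ≤ d` with `e_m ∉ W`. Let `u_k = (β_{k,0} m^i - β_{k,i})_{1 ≤ i ≤ d}`, integer vectors
in `ℤ^d`. They are linearly independent over `ℚ`: if `∑ c_k u_k = 0` then `w = ∑ c_k toQ (β_k) ∈ W` has
`w_i = w_0 m^i` for all `i`, so `w = w_0 e_m`, hence `w_0 = 0` (else `e_m ∈ W`), `w = 0`, `c = 0`. By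
`S_NZM` there is `r : Fin j → Fin d` with `det (u_k (r l)) ≠ 0`, an integer, so of absolute value at least 1.
For `r' = Fin.succ ∘ r`, `hx d a K m (β k) (r' l) = K * u_k (r l)`, so `|mnr a K m β r'| = K^j |det| ≥ 1`, and
the other terms of the sum `psi` are nonnegative. -/
def S_ONP : Prop := ∀ (d j : ℕ) (a K : ℝ) (β : Fin j → Fin (d + 1) → ℤ), 1 ≤ K → j ≤ d →
  LinearIndependent ℚ (fun k => toQ (β k)) → ∃ m : ℕ, m ≤ d ∧ 1 ≤ psi a K β (m : ℝ)

/-- PACKET POL. The minors are polynomials of degree at most `d j` in `x`.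
PROOF. Let `P k l : ℝ[X]` be `C (a v_0)` if `r l = 0` and `C K * (C v_0 * X^(r l) - C v_{r l})` else, `v = β k`;
`f r = det (P k l)`. Evaluation commutes with the determinant (`RingHom.map_det`, `Polynomial.evalRingHom`).
Degree: `Matrix.det_apply`, `Polynomial.natDegree_sum_le_of_forall_le`, `natDegree_smul_le`,
`Polynomial.natDegree_prod_le` (each of the `j` factors has degree at most `d`). -/
def S_POL : Prop := ∀ (d j : ℕ) (a K : ℝ) (β : Fin j → Fin (d + 1) → ℤ),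
  ∃ f : (Fin j → Fin (d + 1)) → Polynomial ℝ, (∀ r, (f r).natDegree ≤ d * j) ∧
    ∀ (x : ℝ) (r : Fin j → Fin (d + 1)), (f r).eval x = mnr a K x β r

/-- The properties of the family of functions `Ψ W`. -/
structure PsiProps (d : ℕ) (a K : ℝ) (Ψ : Submodule ℚ (Fin (d + 1) → ℚ) → ℝ → ℝ) : Prop where
  bot : ∀ x, Ψ ⊥ x = 1
  poly : ∀ W, ∃ (ι : Type) (_ : Fintype ι) (f : ι → Polynomial ℝ),
    Fintype.card ι ≤ (d + 1) ^ (d + 1) ∧ (∀ r, (f r).natDegree ≤ d * (d + 1)) ∧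
      ∀ x, Ψ W x = ∑ r, |(f r).eval x|
  one : ∀ W, W ≠ ⊥ → ∃ m : ℕ, m ≤ d ∧ 1 ≤ Ψ W (m : ℝ)
  step : ∀ (W : Submodule ℚ (Fin (d + 1) → ℚ)) (v : Fin (d + 1) → ℤ), toQ v ∉ W → ∀ x M : ℝ,
    (∀ i, |hx d a K x v i| ≤ M) → Ψ (W ⊔ Submodule.span ℚ {toQ v}) x ≤ (d + 1) ^ 2 * M * Ψ W x

/-- PACKET PSI (may assume `S_TUP`, `S_REL`, `S_LAP`, `S_ONF`, `S_ONP`, `S_POL`).
PROOF. Choose `β W` by `S_TUP` and let `Ψ W = psi a K (β W)`.
`bot`: the dimension is 0; prove first that `psi a K β x = 1` for `β : Fin j → _` and `j = 0` (one function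
`Fin 0 → _`, empty determinant 1).
`poly`: `S_POL`, index type `Fin j → Fin (d+1)` with `j = finrank W ≤ d + 1`.
`one`: `j ≥ 1`; if `j ≤ d` use `S_ONP`, if `j = d + 1` use `S_ONF` (with `m = 0`).
`step`: `W' = W ⊔ span {toQ v}` has dimension `j + 1` (`v ∉ W`), and `Fin.cons v (β W)` is an independent tuple of
`j + 1` integer vectors in `W'` (`LinearIndependent.fin_cons` or `linearIndependent_fin_cons`). By `S_REL`
`Ψ W' x ≤ psi a K (Fin.cons v (β W)) x`, and by `S_LAP` this is at most `(j+1)(d+1) M Ψ W x` with `j + 1 ≤ d + 1`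
(`j + 1 = finrank W' ≤ d + 1`), `M ≥ 0`. -/
def S_PSI : Prop := ∀ (d : ℕ) (a K : ℝ), 1 ≤ d → 0 < a → 1 ≤ K → 1 ≤ a * K ^ d →
  ∃ Ψ : Submodule ℚ (Fin (d + 1) → ℚ) → ℝ → ℝ, PsiProps d a K Ψ

/-- PACKET LAG. Lagrange interpolation bound.
PROOF. The points are distinct, so `f` is its Lagrange interpolation polynomial at the `D + 1` points
(`Lagrange.eq_interpolate_of_eval_eq` / `Lagrange.eq_interpolate`, degree `< D + 1`); evaluate at `y`:
`f y = ∑ i, f (x i) ∏_{k ≠ i} (y - x k) / (x i - x k)` (`Lagrange.basis`, `Lagrange.basisDivisor`), each factor has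
absolute value at most `(v - u) / s`, there are `D` factors, `D + 1` summands. -/
def S_LAG : Prop := ∀ (D : ℕ) (f : Polynomial ℝ), f.natDegree ≤ D → ∀ u v s t : ℝ, 0 < s →
  ∀ x : Fin (D + 1) → ℝ, (∀ i, x i ∈ Set.Icc u v) → (∀ i j, i ≠ j → s ≤ |x i - x j|) →
  (∀ i, |f.eval (x i)| ≤ t) → ∀ y ∈ Set.Icc u v, |f.eval y| ≤ (D + 1) * t * ((v - u) / s) ^ D

/-- PACKET SPC. Separated points in a set of positive measure.
PROOF. Induction on `k`, for all `E` (no measurability: outer measure). `k = 0`: `E` is nonempty. Step: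
`volume E > (k+1) s`. Let `x0 = sInf E` and choose `η > 0` with `volume E > (k+1) s + η`; take `e ∈ E`,
`e < x0 + η`. `E ⊆ Icc x0 (e + s) ∪ (E ∩ Ici (e+s))`, and `volume (Icc x0 (e+s)) ≤ s + η`, so
`volume (E ∩ Ici (e+s)) > k s`; apply the induction hypothesis and add the point `e` (`Fin.cons`). -/
def S_SPC : Prop := ∀ (k : ℕ) (E : Set ℝ) (u v s : ℝ), 0 < s → E ⊆ Set.Icc u v →
  ENNReal.ofReal (k * s) < volume E →
  ∃ x : Fin (k + 1) → ℝ, (∀ i, x i ∈ E) ∧ ∀ i j, i ≠ j → s ≤ |x i - x j|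

/-- PACKET REM (may assume `S_LAG`, `S_SPC`). Polynomials are good functions.
PROOF. `C = D (D + 2)`. If `t ≤ 0` the set is empty. Let `t > 0`, `s = (D + 2) (t/A)^(1/D) (v - u) > 0`, and
suppose that the measure of the set `E` is larger than `D s`. By `S_SPC` (`k = D`) there are `D + 1` points of
`E` with distances at least `s`; by `S_LAG`, `A ≤ |f y| ≤ (D+1) t ((v-u)/s)^D = (D+1) t (D+2)^(-D) (A/t)
= A (D+1)/(D+2)^D < A`, a contradiction. -/
def S_REM : Prop := ∀ D : ℕ, 1 ≤ D → ∃ C : ℝ, 0 < C ∧ ∀ f : Polynomial ℝ, f.natDegree ≤ D →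
  ∀ u v A t : ℝ, u < v → 0 < A → (∃ y ∈ Set.Icc u v, A ≤ |f.eval y|) →
  volume {x : ℝ | x ∈ Set.Icc u v ∧ |f.eval x| < t} ≤
    ENNReal.ofReal (C * (t / A) ^ (1 / (D : ℝ)) * (v - u))

/-- PACKET GRW (may assume `S_LAG`). Growth of polynomials from a half interval.
PROOF. `G = (D+1) (2(D+1))^D ≥ 1`. Apply `S_LAG` with the points `x i = u' + i (v'-u')/(D+1)`, `i = 0, ..., D`,
`s = (v-u)/(2(D+1))`, `t = A`. -/
def S_GRW : Prop := ∀ D : ℕ, ∃ G : ℝ, 1 ≤ G ∧ ∀ f : Polynomial ℝ, f.natDegree ≤ D →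
  ∀ u v u' v' A : ℝ, u < v → u ≤ u' → v' ≤ v → v' - u' = (v - u) / 2 →
  (∀ y ∈ Set.Icc u' v', |f.eval y| ≤ A) → ∀ y ∈ Set.Icc u v, |f.eval y| ≤ G * A

/-- The point `x` is marked by some chain in `T`. -/
def Marked {α : Type} [PartialOrder α] (T : Finset α) (ψ : α → ℝ → ℝ) (ε G x : ℝ) : Prop :=
  ∃ F : Finset α, F ⊆ T ∧ IsChain (· ≤ ·) (F : Set α) ∧ (∀ s ∈ F, ε ≤ ψ s x ∧ ψ s x ≤ G) ∧
    ∀ s ∈ T, s ∉ F → (∀ t ∈ F, s ≤ t ∨ t ≤ s) → 1 ≤ ψ s x

/-- PACKET NDC. The nondivergence induction.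
PROOF. Induction on `l`, for all `T, u, v`. Let `c l = 2^(l+1) - 2`, so `c 0 = 0`, `c (l+1) = 2 (c l + 1)`.
`l = 0`: `T` is empty (a singleton is a chain), every point is marked by the empty chain.
Step `l → l + 1`. Let `E = {x | ¬ Marked T ψ ε G x}`. Call an interval `[p, q]` *low* if some `s ∈ T` has `ψ s < 1`
on `[p, q]`.
(1) If `[p, q]`, `p < q`, is not low but one of its halves is low (for `s0 ∈ T`), then
`volume (E ∩ [p, q]) ≤ (c l + 1) δ (q - p)`. Indeed `ψ s0 ≤ G` on `[p, q]` by the growth hypothesis. Let `T'` be the set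
of `s ∈ T`, `s ≠ s0`, comparable to `s0`; chains in `T'` have at most `l` elements (add `s0`), and all
`s ∈ T'` have a point `y ∈ [p, q]` with `1 ≤ ψ s y`. By the induction hypothesis the points of `[p, q]` not marked for
`T'` have measure at most `c l δ (q - p)`; and `{y ∈ [p, q] | ψ s0 y < ε}` has measure at most `δ (q - p)`. If `y ∈ [p, q]`
is marked for `T'` by `F'` and `ψ s0 y ≥ ε`, then it is marked for `T` by `F' ∪ {s0}`: an element `s ∈ T`, `s ∉ F' ∪ {s0}`,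
comparable to all elements of `F' ∪ {s0}` is in `T'`.
(2) Define `Stop k p q x` by recursion: `Stop 0 p q x` iff `x ∈ [p, q]` and `[p, q]` is low; `Stop (k+1) p q x` iff
`Stop 0 p q x` or `Stop k p ((p+q)/2) x` or `Stop k ((p+q)/2) q x`. By induction on `k`: if `[p, q]`, `p < q`, is not
low then `volume (E ∩ {x | Stop k p q x}) ≤ 2 (c l + 1) δ (q - p)`: for `k = 0` the set is empty; for `k + 1` it is contained
in the union over the two halves `[p', q']` of `E ∩ Stop k p' q'`; if the half is low, its measure is at most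
`volume (E ∩ [p, q]) ≤ (c l + 1) δ (q - p) = 2 (c l + 1) δ (q' - p')` by (1) (note `Stop k p' q' x → x ∈ [p', q']`),
otherwise use the induction hypothesis. Add the two halves.
(3) Let `x ∈ E ∩ [u, v]`. Then some `s ∈ T` has `ψ s x < 1` (otherwise `x` is marked by the empty chain), and by
continuity `ψ s < 1` on `(x - r, x + r)`; a dyadic subinterval of `[u, v]` of level `k` with `(v-u)/2^k < r`
containing `x` is low, so `Stop k u v x`. So `E ∩ [u, v] ⊆ ⋃ k, E ∩ {x | Stop k u v x}`, an increasing union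
(`Stop k → Stop (k+1)`), and `measure_iUnion_eq_iSup` (directed, monotone) gives the bound. -/
def S_NDC : Prop := ∀ (α : Type) [PartialOrder α] (ψ : α → ℝ → ℝ) (ε G δ : ℝ), 0 ≤ δ →
  (∀ s, Continuous (ψ s)) →
  (∀ s, ∀ u v : ℝ, u < v → (∃ y ∈ Set.Icc u v, 1 ≤ ψ s y) →
    volume {x : ℝ | x ∈ Set.Icc u v ∧ ψ s x < ε} ≤ ENNReal.ofReal (δ * (v - u))) →
  (∀ s, ∀ u v u' v' : ℝ, u < v → u ≤ u' → v' ≤ v → v' - u' = (v - u) / 2 →
    (∀ y ∈ Set.Icc u' v', ψ s y < 1) → ∀ y ∈ Set.Icc u v, ψ s y ≤ G) →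
  ∀ (l : ℕ) (T : Finset α), (∀ F : Finset α, F ⊆ T → IsChain (· ≤ ·) (F : Set α) → F.card ≤ l) →
  ∀ u v : ℝ, u < v → (∀ s ∈ T, ∃ y ∈ Set.Icc u v, 1 ≤ ψ s y) →
  volume {x : ℝ | x ∈ Set.Icc u v ∧ ¬ Marked T ψ ε G x} ≤
    ENNReal.ofReal ((2 ^ (l + 1) - 2) * δ * (v - u))

open Classical in
/-- The nonzero subspaces spanned by subsets of the finite set `V` of integer vectors. -/
noncomputable def spans {d : ℕ} (V : Finset (Fin (d + 1) → ℤ)) :
    Finset (Submodule ℚ (Fin (d + 1) → ℚ)) :=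
  (V.powerset.image fun A => Submodule.span ℚ (toQ '' (A : Set (Fin (d + 1) → ℤ)))).erase ⊥

/-- PACKET MRK. Marked points have no short vectors.
PROOF. Let `F` be the chain marking `x`, suppose `v ∈ V`, `v ≠ 0` and `|h_x v| < ρ := ε/((d+1)^2 G)` in all coordinates;
let `M = max_i |h_x v i| < ρ`. `F ∪ {⊥}` is a finite chain, `⊥` does not contain `toQ v`; let `W` be the largest element
of `F ∪ {⊥}` not containing `toQ v` and `W' = W ⊔ span {toQ v}`. `W` is the span of `toQ '' A` for a subset `A ⊆ V`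
(for `⊥` take `A = ∅`), so `W'` is the span of `toQ '' (A ∪ {v})` and is nonzero: `W' ∈ spans V`. `W'` is comparable to all
`t ∈ F`: `t` and `W` are comparable; if `t ≤ W` then `t ≤ W'`; otherwise `W < t`, so `toQ v ∈ t` by the choice of `W`, and
`W' ≤ t`. So `ε ≤ Ψ W' x` (if `W' ∈ F` by the chain property, otherwise `1 ≤ Ψ W' x`). By `step`
`Ψ W' x ≤ (d+1)^2 M Ψ W x` and `Ψ W x ≤ G` (`Ψ ⊥ x = 1 ≤ G`), so `ε ≤ (d+1)^2 M G < ε`, a contradiction
(`M ≥ 0`). -/
def S_MRK : Prop := ∀ (d : ℕ) (a K : ℝ) (Ψ : Submodule ℚ (Fin (d + 1) → ℚ) → ℝ → ℝ),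
  PsiProps d a K Ψ → ∀ (V : Finset (Fin (d + 1) → ℤ)) (ε G x : ℝ), 0 < ε → ε ≤ 1 → 1 ≤ G →
  Marked (spans V) Ψ ε G x → ∀ v ∈ V, v ≠ 0 →
  ¬ (∀ i, |hx d a K x v i| < ε / ((d + 1) ^ 2 * G))

/-- PACKET MEAS (may assume `S_PSI`, `S_REM`, `S_GRW`, `S_NDC`, `S_MRK`). The measure bound.
PROOF. Let `R' = max R d`, `D = d (d+1) ≥ 1`, `N0 = (d+1)^(d+1)`, `C0` from `S_REM D`, `G0` from `S_GRW D`,
`G = N0 G0 ≥ 1`, `c1 = (d+1)^2 G`, `ρ = 2 (B τ^d)^(1/(d+1))`, `ε = c1 ρ`, `θ = 1/((d+1) D)`.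
If `ε > 1` the bound is trivial (`volume ≤ 2R` and `(B τ^d)^θ ≥ (1/(2 c1))^(1/D)`, `C` large). Let `ε ≤ 1`.
Put `a = ρ/(2B)`, `K = ρ/(2τ)`. Then `a K^d = ρ^(d+1)/(2^(d+1) B τ^d) = 1` and
`K = (B τ^d)^(1/(d+1))/τ = (B/τ)^(1/(d+1)) ≥ 1`. Take `Ψ` from `S_PSI`.
Each `Ψ W = ∑ r, |f_r|` is continuous; `hgood`: if `Ψ W y ≥ 1` then some `|f_r y| ≥ 1/N0`, and
`{Ψ W < ε} ⊆ {|f_r| < ε}` so by `S_REM` (`A = 1/N0`) the measure is at most `δ (v-u)`, `δ = C0 (ε N0)^(1/D)`. `hgrow`: if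
`Ψ W < 1` on a half then all `|f_r| ≤ 1` there, so `|f_r| ≤ G0` on the interval and `Ψ W ≤ N0 G0 = G`.
Let `V` be the finite set of integer vectors with all entries of absolute value at most `N1 = B (R'^d + 1) + 1`
(rounded up; `R' ≥ 1`) and `T = spans V`. Chains of subspaces in `T` have at most `d + 1` elements (nonzero subspaces of
`ℚ^(d+1)`, `finrank` is strictly monotone and between 1 and `d+1`). For `W ∈ T`, `W ≠ ⊥`, so by `one` there is
`m ≤ d` with `Ψ W m ≥ 1`, `m ∈ [-R', R']`. `S_NDC` with `l = d + 1` on `[-R', R']`: the unmarked points of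
`[-R', R']` have measure at most `(2^(d+2) - 2) δ 2 R'`. If `x ∈ [-R, R]` and `1 ≤ b ≤ B` is `Near d τ x b` with
integers `s_i`, then `v = (b, s_1, ..., s_d) ∈ V` (`|s_i| ≤ b |x|^i + τ ≤ B R'^d + 1`), `v ≠ 0`,
`|h_x v 0| = a b ≤ ρ/2 < ρ`, `|h_x v i| = K |b x^i - s_i| ≤ K τ = ρ/2 < ρ = ε/((d+1)^2 G)`, so `x` is not marked by `S_MRK`.
So the measure is at most `2^(d+2) C0 (c1 ρ N0)^(1/D) 2 R' = C (B τ^d)^(1/((d+1) D))`. -/
def S_MEAS : Prop := ∀ (d : ℕ) (R : ℝ), 1 ≤ d → 1 ≤ R → ∃ C θ : ℝ, 0 < C ∧ 0 < θ ∧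
  ∀ (B : ℕ) (τ : ℝ), 1 ≤ B → 0 < τ → τ ≤ 1 →
  volume {x : ℝ | x ∈ Set.Icc (-R) R ∧ ∃ b : ℕ, 1 ≤ b ∧ b ≤ B ∧ Near d τ x b} ≤
    ENNReal.ofReal (C * ((B : ℝ) * τ ^ d) ^ θ)

end Pool.Agent.Helper41.LF
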