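import Mathlib
import Pool.Agent.Helper41.LF.GoalsA
import Pool.Agent.Helper92.Avg.Main
import Pool.Agent.Helper92.Avg2.Tail

/-!
# Project LF (MP_c307ca_nt), part B: from the measure bound to counting algebraic numbers

Notation: `Near d τ x l` (part A), `Avg.box n H` = integer vectors with entries in `[-H, H]`, `AlgNums d H R`,
`polyR`, `abs_aeval_le`, `polyR_coeffs`, `polyR_natDegree`, `psi`, `Zsum`: `Pool/Agent/Helper92/Avg/*.lean`;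
`Kof`, `posSet`: `Pool/Agent/Helper92/Field/PerQ.lean`; `card_near_shift`: `Pool/Agent/Helper92/Avg2/Tail.lean`.
-/

set_option autoImplicit false

namespace Pool.Agent.Helper41.LF

open MeasureTheory Finset Pool.Agent.Helper92

open Classical in
/-- The integer vectors (coefficients of polynomials of degree at most `d` and height at most `H`) with
absolute value at most `δ` at `θ`. -/
noncomputable def smallVal (d H : ℕ) (θ δ : ℝ) : Finset (Fin (d + 1) → ℤ) :=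
  (Avg.box (d + 1) H).filter fun a => |∑ i : Fin (d + 1), (a i : ℝ) * θ ^ (i : ℕ)| ≤ δ

/-- PACKET CNT. Counting polynomials with a small value at `θ`.
PROOF. `C = 192 (12 d)^d` works in both cases. Let `T = smallVal d H θ δ`.
Case `δ < 1/2`: the map `a ↦ (a_1, ..., a_d)` (`fun a i => a i.succ`) is injective on `T`, since two elements with the same
image have `|a_0 - a'_0| ≤ 2 δ < 1`. Its image satisfies the hypothesis of `Avg2.card_near_shift` with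
`x i = θ^(i+1)`, `y = 0`, `n = -a_0`; by our hypothesis `Field.posSet x (Field.Kof δ) (1/(6 d H))` is empty. So
`card T ≤ 192 (12 d)^d H^d δ`.
Case `δ ≥ 1/2`: the image has at most `(2H+1)^d ≤ (3H)^d` elements, and each fibre has at most `2 δ + 1 ≤ 4 δ` elements
(the integers `a_0` lie in an interval of length `2 δ`). So `card T ≤ 4 δ 3^d H^d`. -/
def S_CNT : Prop := ∀ d : ℕ, 1 ≤ d → ∃ C : ℝ, 0 < C ∧ ∀ (H : ℕ) (θ δ : ℝ), 1 ≤ H → 0 < δ →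
  (∀ l : ℕ, 0 < l → l < Field.Kof δ → ¬ Near d (1 / (6 * d * H)) θ l) →
  ((smallVal d H θ δ).card : ℝ) ≤ C * (H : ℝ) ^ d * δ

/-- The constant of the mesh. -/
noncomputable def Econ (d : ℕ) (R : ℝ) : ℝ := 48 * (d : ℝ) ^ 2 * (R + 2) ^ d

/-- The mesh of the grid. -/
noncomputable def mesh (d : ℕ) (R : ℝ) (H M : ℕ) : ℝ := 1 / (Econ d R * M * H)

/-- PACKET PERT. Perturbation of `Near`.
PROOF. `|l x^i - s| ≤ |l y^i - s| + l |x^i - y^i|` and `|x^i - y^i| ≤ |x - y| i max(|x|,|y|)^(i-1) ≤ |x - y| d Q^d`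
(`abs_pow_sub_pow_le`, as in `Helper92.Avg.abs_aeval_le`) for `1 ≤ i ≤ d`, `Q ≥ 1`. -/
def S_PERT : Prop := ∀ (d l : ℕ) (Q τ τ' x y : ℝ), 1 ≤ Q → |x| ≤ Q → |y| ≤ Q → Near d τ y l →
  τ + (l : ℝ) * (d * Q ^ d * |x - y|) ≤ τ' → Near d τ' x l

/-- PACKET CELL (may assume `S_MEAS`, `S_PERT`). Counting the grid cells near points with an approximation of
denominator `b ∈ [M, 2M)`.
PROOF. Let `h = mesh d R H M`, so `0 < h ≤ 1`. Take `C0, θ` from `S_MEAS d (R+2)`. For `k ∈ Z` with witness `ξ, b` and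
`x ∈ [k h, (k+1) h)`: `|x - ξ| ≤ 2 h`, `|x| ≤ R + 2`, and by `S_PERT` (`Q = R + 2`) `Near d (1/(d H)) x b`, because
`1/(3dH) + b d (R+2)^d 2h ≤ 1/(3dH) + 4 M d (R+2)^d/(48 d^2 (R+2)^d M H) = 1/(3dH) + 1/(12dH) ≤ 1/(dH)`. So the
disjoint intervals `[k h, (k+1) h)`, `k ∈ Z`, are contained in the set of `S_MEAS` with `B = 2M`, `τ = 1/(dH) ≤ 1`,
and `card Z * h ≤ C0 (2M (1/(dH))^d)^θ ≤ C0 2^θ (M/H^d)^θ`. Multiply by `1/h = Econ d R * M * H`. -/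
def S_CELL : Prop := ∀ (d : ℕ) (R : ℝ), 1 ≤ d → 1 ≤ R → ∃ C θ : ℝ, 0 < C ∧ 0 < θ ∧
  ∀ (H M : ℕ), 1 ≤ H → 1 ≤ M → ∀ Z : Finset ℤ,
  (∀ k ∈ Z, ∃ ξ : ℝ, |ξ| ≤ R ∧ |ξ - k * mesh d R H M| ≤ mesh d R H M ∧
    ∃ b : ℕ, M ≤ b ∧ b < 2 * M ∧ Near d (1 / (3 * d * H)) ξ b) →
  (Z.card : ℝ) ≤ C * M * H * ((M : ℝ) / (H : ℝ) ^ d) ^ θ

/-- PACKET DYAD (may assume `S_CELL`, `S_CNT`, `S_PERT`). Algebraic numbers whose first good denominator is in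
`[M, 2M)`.
PROOF. Let `h = mesh d R H M`, `0 < h ≤ 1`, `δ = 1/(24 M)`. Let `Z` be the set of integers `k`, `|k| ≤ (R+1)/h`, with the
property in `S_CELL` and such that `¬ Near d (1/(6dH)) (k h) l` for all `0 < l < M` (a filter of `Finset.Icc`). Let
`F = ⋃_{k ∈ Z} ⋃_{a ∈ smallVal d H (k h) δ} (Avg.polyR a).roots.toFinset`.
Count: `Field.Kof δ = max 1 M = M`, so `S_CNT` gives `card (smallVal ..) ≤ C1 H^d/(24 M)` for `k ∈ Z`; each `polyR a` has at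
most `d` roots (`Avg.polyR_natDegree`); `card Z ≤ C2 M H (M/H^d)^θ` by `S_CELL`. The product is
`d C1 C2/24 * H^(d+1) (M/H^d)^θ`.
Membership: let `ξ` be as in the statement, root of `P`. `k = ⌊ξ/h⌋`, `|ξ - k h| ≤ h`, `|k h| ≤ R + 1`. For `0 < l < M`,
`Near d (1/(6dH)) (k h) l` would give by `S_PERT` (`Q = R + 1`) `Near d (1/(3dH)) ξ l`, since
`1/(6dH) + l d (R+1)^d h ≤ 1/(6dH) + 1/(48dH) ≤ 1/(3dH)`; excluded by the hypothesis. So `k ∈ Z`. By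
`Avg.abs_aeval_le` (`B = R + 1`), `|P(k h)| ≤ h H (d+1) d (R+1)^d ≤ (d+1) d (R+1)^d/(48 d^2 (R+2)^d M) ≤ 1/(24 M)` as
`d + 1 ≤ 2 d`. So the coefficient vector of `P` is in `smallVal` and `ξ` is a root of `polyR` of it
(see the end of the proof of `Helper92.Avg2.upper_bound2`). -/
def S_DYAD : Prop := ∀ (d : ℕ) (R : ℝ), 1 ≤ d → 1 ≤ R → ∃ C θ : ℝ, 0 < C ∧ 0 < θ ∧
  ∀ (H M : ℕ), 1 ≤ H → 1 ≤ M → ∃ F : Finset ℝ,
  (F.card : ℝ) ≤ C * (H : ℝ) ^ (d + 1) * ((M : ℝ) / (H : ℝ) ^ d) ^ θ ∧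
  ∀ ξ ∈ Avg.AlgNums d H R,
    (∃ b : ℕ, M ≤ b ∧ b < 2 * M ∧ Near d (1 / (3 * d * H)) ξ b) →
    (∀ b : ℕ, 1 ≤ b → b < M → ¬ Near d (1 / (3 * d * H)) ξ b) → ξ ∈ F

/-- PACKET BADN (may assume `S_DYAD`).
PROOF. `B = 0`: `F = ∅`. `B ≥ 1`: for `ξ` with some `1 ≤ b ≤ B`, `Near d (1/(3dH)) ξ b`, take the least such `b ≥ 1` and
`k = Nat.log 2 b`, `2^k ≤ b < 2^(k+1)`, `k ≤ L := Nat.log 2 B`. So `F = ⋃_{k ≤ L} F_k` with `F_k` from `S_DYAD` for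
`M = 2^k`. The cardinality is at most `C H^(d+1) ∑_{k ≤ L} (2^k/H^d)^θ` and `∑_{k ≤ L} (2^k)^θ ≤ (2^L)^θ/(1 - 2^(-θ))
≤ B^θ/(1 - 2^(-θ))` (geometric series with ratio `2^θ > 1`). -/
def S_BADN : Prop := ∀ (d : ℕ) (R : ℝ), 1 ≤ d → 1 ≤ R → ∃ C θ : ℝ, 0 < C ∧ 0 < θ ∧
  ∀ (H B : ℕ), 1 ≤ H → ∃ F : Finset ℝ,
  (F.card : ℝ) ≤ C * (H : ℝ) ^ (d + 1) * ((B : ℝ) / (H : ℝ) ^ d) ^ θ ∧
  ∀ ξ ∈ Avg.AlgNums d H R, (∃ b : ℕ, 1 ≤ b ∧ b ≤ B ∧ Near d (1 / (3 * d * H)) ξ b) → ξ ∈ F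

/-- PACKET UPP (may assume `S_BADN`, `S_CNT`, `S_PERT`). The upper bound for the number of exceptions.
PROOF. Let `R1 = R + psi ε 0 + 1`, `D0 = (d+1) d R1^d ≥ 1`, `C1` from `S_CNT`, `C2, θ` from `S_BADN`. Given `c`, let
`δ = 24 c D0 (c/C2)^(1/θ)`. Given `H`, let `B = ⌊δ H^d/(24 c D0)⌋₊`, so `B/H^d ≤ (c/C2)^(1/θ)` and `S_BADN` gives `F1` with
`card F1 ≤ c H^(d+1)`. For `q ≥ 2` let `δ_q = c * psi ε q * (H * D0)` (`psi ε q = 1/(q^2 (log q)^(1+ε))`) and let `F2` be the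
union of the roots of `polyR a` over all `2 ≤ q ≤ Q`, `|p| ≤ R1 q`, such that `¬ Near d (1/(6dH)) (p/q) l` for all
`0 < l < Kof δ_q`, and `a ∈ smallVal d H (p/q) δ_q`; here `Q = ⌈δ H^(d+1)/(log 2)^(1+ε)⌉₊` is only needed for finiteness.
By `S_CNT`, `card F2 ≤ d ∑_q (2 R1 q + 1) C1 H^d δ_q ≤ 3 d R1 C1 D0 c H^(d+1) ∑_q q psi ε q
≤ 3 d R1 C1 D0 c H^(d+1) Zsum ε` (`Avg.sum_le_Zsum`). `F = F1 ∪ F2`.
Membership: let `ξ, p, q` be as in the statement. If `Near d (1/(3dH)) ξ b` for some `1 ≤ b ≤ B` then `ξ ∈ F1`. Otherwise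
we show `ξ ∈ F2`. `q ≤ Q` as `q (log 2)^(1+ε) ≤ q^2 (log q)^(1+ε) ≤ δ H^(d+1)`. `|p/q| ≤ R + psi ε 0 ≤ R1`. If
`0 < l < Kof δ_q` then `l ≤ 1/(24 δ_q) = q^2 (log q)^(1+ε)/(24 c H D0) ≤ δ H^d/(24 c D0)`, so `l ≤ B`; and
`Near d (1/(6dH)) (p/q) l` would give by `S_PERT` (`Q = R1`) `Near d (1/(3dH)) ξ l`, since
`l d R1^d c psi ε q ≤ d R1^d/(24 H D0) = 1/(24 (d+1) H) ≤ 1/(6dH)`; contradiction. Finally by `Avg.abs_aeval_le`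
(`B = R1`) `|P(p/q)| ≤ c psi ε q H D0 = δ_q`, so the coefficient vector of `P` is in `smallVal`.
Compare `Helper92.Avg2.upper_bound2` (`Pool/Agent/Helper92/Avg2/Main.lean`), whose end is very similar (no lowest
terms are needed here). -/
def S_UPP : Prop := ∀ (d : ℕ) (R ε : ℝ), 2 ≤ d → 1 ≤ R → 0 < ε → ∃ C : ℝ, 0 < C ∧
  ∀ c : ℝ, 0 < c → c ≤ 1 → ∃ δ : ℝ, 0 < δ ∧ ∀ H : ℕ, 1 ≤ H → ∃ F : Finset ℝ,
  (F.card : ℝ) ≤ C * c * (H : ℝ) ^ (d + 1) ∧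
  ∀ ξ ∈ Avg.AlgNums d H R,
    (∃ (p : ℤ) (q : ℕ), 2 ≤ q ∧
      (q : ℝ) ^ 2 * (Real.log (q : ℝ)) ^ (1 + ε) ≤ δ * (H : ℝ) ^ (d + 1) ∧
      |ξ - (p : ℝ) / q| ≤ c / ((q : ℝ) ^ 2 * (Real.log (q : ℝ)) ^ (1 + ε))) → ξ ∈ F

end Pool.Agent.Helper41.LF
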