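import Mathlib
import Pool.Agent.Helper41.LF.GoalsB

/-!
# Algebraic numbers in a union of short intervals

Adapted from `Helper19/LF/UPP.lean`.
-/

set_option autoImplicit false

namespace Pool.Agent.Helper41.LF

open MeasureTheory Finset Polynomial Pool.Agent.Helper92

/-- The number of real algebraic numbers of degree `d` and height at most `H` in a union of intervals of radii
`r i`, `1/(δ H^(d+1)) ≤ r i ≤ 1`, is at most `C (∑ r i + δ^θ) H^(d+1)`. -/
theorem arb (hB : S_BADN) (hC : S_CNT) (hP : S_PERT) {d : ℕ} (hd : 1 ≤ d) {R : ℝ} (hR : 1 ≤ R) :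
    ∃ C θ : ℝ, 0 < C ∧ 0 < θ ∧ ∀ (ι : Type) (s : Finset ι) (y r : ι → ℝ) (δ : ℝ) (H : ℕ),
      0 < δ → 1 ≤ H → (∀ i ∈ s, 0 < r i ∧ r i ≤ 1 ∧ 1 ≤ δ * r i * (H : ℝ) ^ (d + 1)) →
      ∃ F : Finset ℝ, (F.card : ℝ) ≤ C * (∑ i ∈ s, r i + δ ^ θ) * (H : ℝ) ^ (d + 1) ∧
        ∀ ξ ∈ Avg.AlgNums d H R, (∃ i ∈ s, |ξ - y i| ≤ r i) → ξ ∈ F := by
  classical
  obtain ⟨C1, hC1, hcnt⟩ := hC d hd
  obtain ⟨C2, θ, hC2, hθ, hbad⟩ := hB d R hd hR
  set R1 : ℝ := R + 1 with hR1def
  have hR1 : 1 ≤ R1 := by linarith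
  have hRR1 : R ≤ R1 := by linarith
  have hdR : (1 : ℝ) ≤ d := by exact_mod_cast hd
  have hd0 : (0 : ℝ) < d := by linarith
  set D0 : ℝ := (d + 1) * d * R1 ^ d with hD0def
  have hR1d : (1 : ℝ) ≤ R1 ^ d := one_le_pow₀ hR1
  have hD0 : 1 ≤ D0 := by
    rw [hD0def]
    exact one_le_mul_of_one_le_of_one_le (by nlinarith) hR1d
  have hD0pos : 0 < D0 := by linarith
  have hR1pos : 0 < R1 := by linarith
  refine ⟨C2 + d * C1 * D0, θ, by positivity, hθ, ?_⟩
  intro ι s y r δ H hδ hH hs
  have hHR : (1 : ℝ) ≤ H := by exact_mod_cast hH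
  have hHpos : (0 : ℝ) < H := by linarith
  set K : ℝ := δ / (24 * D0) with hKdef
  have hK : 0 < K := by positivity
  have hKδ : K ≤ δ := by
    rw [hKdef]
    apply div_le_self hδ.le
    linarith
  set B : ℕ := ⌊K * (H : ℝ) ^ d⌋₊ with hBdef
  obtain ⟨F1, hF1, hF1m⟩ := hbad H B hH
  have hF1c : (F1.card : ℝ) ≤ C2 * δ ^ θ * (H : ℝ) ^ (d + 1) := by
    refine hF1.trans ?_
    have h1 : (B : ℝ) / (H : ℝ) ^ d ≤ K := by
      rw [div_le_iff₀ (by positivity)]
      exact Nat.floor_le (by positivity)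
    have h2 : ((B : ℝ) / (H : ℝ) ^ d) ^ θ ≤ δ ^ θ :=
      Real.rpow_le_rpow (by positivity) (h1.trans hKδ) hθ.le
    calc C2 * (H : ℝ) ^ (d + 1) * ((B : ℝ) / (H : ℝ) ^ d) ^ θ
        ≤ C2 * (H : ℝ) ^ (d + 1) * δ ^ θ := by gcongr
      _ = _ := by ring
  set dq : ι → ℝ := fun i => r i * (H * D0) with hdq
  have hdqpos : ∀ i ∈ s, 0 < dq i := by
    intro i hi
    have := (hs i hi).1
    simp only [hdq]
    positivity
  set PS : Finset ι := s.filter
    (fun i => ∀ l : ℕ, 0 < l → l < Field.Kof (dq i) →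
      ¬ Near d (1 / (6 * d * H)) (y i) l) with hPS
  have hPSs : ∀ i ∈ PS, i ∈ s := fun i hi => (mem_filter.mp hi).1
  set F2 : Finset ℝ := PS.biUnion fun i =>
    (smallVal d H (y i) (dq i)).biUnion fun a => (Avg.polyR a).roots.toFinset with hF2
  have hF2c : (F2.card : ℝ) ≤ (d * C1 * D0) * (∑ i ∈ s, r i) * (H : ℝ) ^ (d + 1) := by
    have hin : ∀ i ∈ PS,
        ((((smallVal d H (y i) (dq i)).biUnion
          fun a => (Avg.polyR a).roots.toFinset).card : ℕ) : ℝ) ≤ d * (C1 * (H : ℝ) ^ d * dq i) := by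
      intro i hi
      have h1 := hcnt H (y i) (dq i) hH (hdqpos i (hPSs i hi)) (mem_filter.mp hi).2
      calc ((((smallVal d H (y i) (dq i)).biUnion
          fun a => (Avg.polyR a).roots.toFinset).card : ℕ) : ℝ)
          ≤ ((∑ a ∈ smallVal d H (y i) (dq i),
              (Avg.polyR a).roots.toFinset.card : ℕ) : ℝ) := Nat.cast_le.mpr card_biUnion_le
        _ ≤ ((∑ a ∈ smallVal d H (y i) (dq i), d : ℕ) : ℝ) := by
            apply Nat.cast_le.mpr
            apply Finset.sum_le_sum
            intro a _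
            exact (Multiset.toFinset_card_le _).trans
              ((card_roots' _).trans (Avg.polyR_natDegree a))
        _ = d * ((smallVal d H (y i) (dq i)).card : ℝ) := by
            rw [sum_const, smul_eq_mul]; push_cast; ring
        _ ≤ d * (C1 * (H : ℝ) ^ d * dq i) := by gcongr
    calc (F2.card : ℝ) ≤ ((∑ i ∈ PS, ((smallVal d H (y i) (dq i)).biUnion
          fun a => (Avg.polyR a).roots.toFinset).card : ℕ) : ℝ) := by
          apply Nat.cast_le.mpr
          exact card_biUnion_le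
      _ = ∑ i ∈ PS, ((((smallVal d H (y i) (dq i)).biUnion
          fun a => (Avg.polyR a).roots.toFinset).card : ℕ) : ℝ) := by push_cast; rfl
      _ ≤ ∑ i ∈ PS, d * (C1 * (H : ℝ) ^ d * dq i) :=
          Finset.sum_le_sum fun i hi => hin i hi
      _ ≤ ∑ i ∈ s, d * (C1 * (H : ℝ) ^ d * dq i) := by
          apply Finset.sum_le_sum_of_subset_of_nonneg hPSs
          intro i hi _
          have := hdqpos i hi
          positivity
      _ = ∑ i ∈ s, (d * C1 * D0 * (H : ℝ) ^ (d + 1)) * r i := by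
          apply Finset.sum_congr rfl
          intro i _
          simp only [hdq]
          ring
      _ = _ := by rw [← Finset.mul_sum]; ring
  refine ⟨F1 ∪ F2, ?_, ?_⟩
  · have hsum : 0 ≤ ∑ i ∈ s, r i := Finset.sum_nonneg fun i hi => (hs i hi).1.le
    have hδθ : 0 < δ ^ θ := Real.rpow_pos_of_pos hδ θ
    calc (((F1 ∪ F2).card : ℕ) : ℝ) ≤ (F1.card : ℝ) + (F2.card : ℝ) := by
          exact_mod_cast card_union_le _ _
      _ ≤ C2 * δ ^ θ * (H : ℝ) ^ (d + 1) + (d * C1 * D0) * (∑ i ∈ s, r i) * (H : ℝ) ^ (d + 1) :=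
          add_le_add hF1c hF2c
      _ ≤ _ := by
          have h1 : 0 ≤ C2 * (∑ i ∈ s, r i) * (H : ℝ) ^ (d + 1) := by positivity
          have h2 : 0 ≤ (d * C1 * D0) * δ ^ θ * (H : ℝ) ^ (d + 1) := by positivity
          nlinarith
  · rintro ξ hξA ⟨i, hi, hle⟩
    obtain ⟨hr0, hr1, hrH⟩ := hs i hi
    rw [mem_union]
    by_cases hnear : ∃ b : ℕ, 1 ≤ b ∧ b ≤ B ∧ Near d (1 / (3 * d * H)) ξ b
    · left
      exact hF1m ξ hξA hnear
    · right
      push Not at hnear
      obtain ⟨hξR, hξd, P, hP0, hPd, hPH, hroot⟩ := hξA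
      have hξR1 : |ξ| ≤ R1 := hξR.trans hRR1
      have hpq : |y i| ≤ R1 := by
        have h4 : |y i| ≤ |ξ| + |ξ - y i| := by
          have h5 := abs_sub_abs_le_abs_sub (y i) ξ
          rw [abs_sub_comm (y i) ξ] at h5
          linarith
        linarith
      have hlbound : ∀ l : ℕ, 0 < l → l < Field.Kof (dq i) → (l : ℝ) * (24 * dq i) ≤ 1 := by
        intro l hl0 hlK
        unfold Field.Kof at hlK
        have h1 : l < ⌊1 / (24 * dq i)⌋₊ := by
          rcases lt_max_iff.mp hlK with h | h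
          · omega
          · exact h
        have h2 : (l : ℝ) ≤ 1 / (24 * dq i) := by
          have h3 : (l : ℝ) ≤ ((⌊1 / (24 * dq i)⌋₊ : ℕ) : ℝ) := by exact_mod_cast h1.le
          have := hdqpos i hi
          exact h3.trans (Nat.floor_le (by positivity))
        have := hdqpos i hi
        rwa [le_div_iff₀ (by positivity)] at h2
      have hval := Avg.abs_aeval_le hR1 hPd hPH hξR1 hpq hroot
      have hvle : |aeval (y i) P| ≤ dq i := by
        refine hval.trans ?_
        simp only [hdq]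
        rw [hD0def]
        gcongr
      rw [hF2, mem_biUnion]
      refine ⟨i, ?_, ?_⟩
      · rw [hPS, mem_filter]
        refine ⟨hi, ?_⟩
        intro l hl0 hlK hne
        have hl := hlbound l hl0 hlK
        have hlB : l ≤ B := by
          rw [hBdef]
          apply Nat.le_floor
          simp only [hdq] at hl
          have h2 : (l : ℝ) * (24 * (r i * (H * D0))) ≤ K * (H : ℝ) ^ d * (24 * (r i * (H * D0))) := by
            calc (l : ℝ) * (24 * (r i * (H * D0))) ≤ 1 := hl
              _ ≤ δ * r i * (H : ℝ) ^ (d + 1) := hrH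
              _ = _ := by rw [hKdef, pow_succ]; field_simp
          exact le_of_mul_le_mul_right h2 (by positivity)
        refine hnear l hl0 hlB ?_
        refine hP d l R1 (1 / (6 * d * H)) (1 / (3 * d * H)) ξ (y i) hR1 hξR1 hpq hne ?_
        have h1 : (l : ℝ) * (d * R1 ^ d * |ξ - y i|) ≤ 1 / (24 * ((d + 1) * H)) := by
          have h2 : (l : ℝ) * (d * R1 ^ d * |ξ - y i|)
              ≤ (l : ℝ) * (d * R1 ^ d * r i) := by gcongr
          refine h2.trans ?_
          rw [le_div_iff₀ (by positivity)]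
          calc (l : ℝ) * (d * R1 ^ d * r i) * (24 * ((d + 1) * H))
              = (l : ℝ) * (24 * dq i) := by simp only [hdq]; rw [hD0def]; ring
            _ ≤ 1 := hl
        have h3 : 1 / (24 * (((d : ℝ) + 1) * H)) ≤ 1 / (6 * d * H) := by
          apply one_div_le_one_div_of_le (by positivity)
          nlinarith [mul_pos hd0 hHpos]
        have h4 : (1 : ℝ) / (3 * d * H) = 1 / (6 * d * H) + 1 / (6 * d * H) := by
          field_simp; norm_num
        rw [h4]
        linarith
      · rw [mem_biUnion]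
        refine ⟨fun i => P.coeff i, ?_, ?_⟩
        · unfold smallVal
          rw [mem_filter]
          refine ⟨?_, ?_⟩
          · rw [Avg.mem_box]; intro i; exact hPH i
          · have h1 : ∑ j : Fin (d + 1), ((P.coeff (j : ℕ) : ℤ) : ℝ) * (y i) ^ (j : ℕ)
                = aeval (y i) P := by
              rw [aeval_eq_sum_range' (n := d + 1) (by omega),
                Fin.sum_univ_eq_sum_range
                  (fun j => ((P.coeff j : ℤ) : ℝ) * (y i) ^ j) (d + 1)]
              apply Finset.sum_congr rfl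
              intro j _
              rw [zsmul_eq_mul]
            rw [h1]
            exact hvle
        · rw [Multiset.mem_toFinset, Avg.polyR_coeffs hPd, mem_roots']
          refine ⟨?_, ?_⟩
          · rw [Ne, Polynomial.map_eq_zero_iff (algebraMap ℤ ℝ).injective_int]; exact hP0
          · rw [IsRoot, eval_map_algebraMap]; exact hroot

end Pool.Agent.Helper41.LF
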