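import Mathlib
import Pool.Agent.Helper41.LF.Arb

/-!
# Lang's inequality on average over all algebraic numbers of degree `d`, full range
-/

set_option autoImplicit false

namespace Pool.Agent.Helper41.LF

open Finset Polynomial Pool.Agent.Helper92

/-- `∑_{Q0 ≤ q} 1/(q (log q)^(1+ε)) ≤ (1 + 1/ε)/(log Q0)^ε`. -/
lemma tail_sum {ε : ℝ} (hε : 0 < ε) {Q0 : ℕ} (hQ0 : 2 ≤ Q0) (Q : ℕ) :
    ∑ q ∈ Icc Q0 Q, (q : ℝ) * (1 / ((q : ℝ) ^ 2 * (Real.log (q : ℝ)) ^ (1 + ε)))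
      ≤ (1 + 1 / ε) / (Real.log (Q0 : ℝ)) ^ ε := by
  have hlogpos : ∀ q : ℕ, 2 ≤ q → 0 < Real.log (q : ℝ) := by
    intro q hq
    apply Real.log_pos
    have : (2 : ℝ) ≤ q := by exact_mod_cast hq
    linarith
  -- strengthened induction
  have key : ∀ n : ℕ, ∑ q ∈ Icc Q0 (Q0 + n),
      (q : ℝ) * (1 / ((q : ℝ) ^ 2 * (Real.log (q : ℝ)) ^ (1 + ε)))
      ≤ (1 + 1 / ε) / (Real.log (Q0 : ℝ)) ^ ε
        - (1 / ε) / (Real.log ((Q0 + n : ℕ) : ℝ)) ^ ε := by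
    intro n
    induction n with
    | zero =>
      rw [Nat.add_zero, Icc_self, sum_singleton]
      have h0 := hlogpos Q0 hQ0
      have h2 : (2 : ℝ) ≤ Q0 := by exact_mod_cast hQ0
      have h3 : 0 < (Real.log (Q0 : ℝ)) ^ ε := Real.rpow_pos_of_pos h0 _
      have h4 : (Real.log (Q0 : ℝ)) ^ (1 + ε) = Real.log (Q0 : ℝ) * (Real.log (Q0 : ℝ)) ^ ε := by
        rw [Real.rpow_add h0, Real.rpow_one]
      have h5 : (1 + 1 / ε) / (Real.log (Q0 : ℝ)) ^ ε - (1 / ε) / (Real.log (Q0 : ℝ)) ^ ε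
          = 1 / (Real.log (Q0 : ℝ)) ^ ε := by ring
      rw [h5, h4]
      have h6 : (Q0 : ℝ) * (1 / ((Q0 : ℝ) ^ 2 * (Real.log (Q0 : ℝ) * (Real.log (Q0 : ℝ)) ^ ε)))
          = 1 / ((Q0 * Real.log (Q0 : ℝ)) * (Real.log (Q0 : ℝ)) ^ ε) := by
        field_simp
      rw [h6]
      apply one_div_le_one_div_of_le h3
      have h7 : 1 ≤ (Q0 : ℝ) * Real.log (Q0 : ℝ) := by
        have h8 : Real.log 2 ≤ Real.log (Q0 : ℝ) := Real.log_le_log (by norm_num) h2
        have h9 := Real.log_two_gt_d9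
        nlinarith
      nlinarith
    | succ n ih =>
      have hsplit : Icc Q0 (Q0 + (n + 1)) = insert (Q0 + n + 1) (Icc Q0 (Q0 + n)) := by
        ext x; simp only [mem_insert, mem_Icc]; omega
      rw [hsplit, sum_insert (by simp)]
      set q : ℕ := Q0 + n with hq
      have hq2 : 2 ≤ q := by omega
      have hqR : (2 : ℝ) ≤ q := by exact_mod_cast hq2
      have hcast : ((q + 1 : ℕ) : ℝ) = (q : ℝ) + 1 := by push_cast; ring
      have e1 : Q0 + (n + 1) = q + 1 := by omega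
      rw [e1]
      -- mean value theorem for f x = -(log x)^(-ε)
      have hderiv : ∀ x : ℝ, 1 < x → HasDerivAt (fun x => -(Real.log x) ^ (-ε))
          (ε * ((Real.log x) ^ (-ε - 1) * x⁻¹)) x := by
        intro x hx
        have hx0 : x ≠ 0 := by linarith
        have hl : 0 < Real.log x := Real.log_pos hx
        have h1 := ((Real.hasDerivAt_log hx0).rpow_const (p := -ε) (Or.inl hl.ne')).neg
        have h2 : -(x⁻¹ * -ε * (Real.log x) ^ (-ε - 1)) = ε * ((Real.log x) ^ (-ε - 1) * x⁻¹) := by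
          ring
        rw [← h2]
        exact h1
      obtain ⟨x, hx, hxe⟩ := exists_hasDerivAt_eq_slope (fun x => -(Real.log x) ^ (-ε))
        (fun x => ε * ((Real.log x) ^ (-ε - 1) * x⁻¹)) (a := (q : ℝ)) (b := (q : ℝ) + 1)
        (by linarith)
        (fun x hx => (hderiv x (by linarith [hx.1])).continuousAt.continuousWithinAt)
        (fun x hx => hderiv x (by linarith [hx.1]))
      have hx1 : (1 : ℝ) < x := by linarith [hx.1]
      have hlx : 0 < Real.log x := Real.log_pos hx1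
      have hlq : 0 < Real.log (q : ℝ) := hlogpos q hq2
      have hlq1 : 0 < Real.log ((q : ℝ) + 1) := Real.log_pos (by linarith)
      have h1 : (Real.log ((q : ℝ) + 1)) ^ (-ε - 1) * ((q : ℝ) + 1)⁻¹
          ≤ (Real.log x) ^ (-ε - 1) * x⁻¹ := by
        have h2 : Real.log x ≤ Real.log ((q : ℝ) + 1) := Real.log_le_log (by linarith) hx.2.le
        have h3 : (Real.log ((q : ℝ) + 1)) ^ (-ε - 1) ≤ (Real.log x) ^ (-ε - 1) :=
          Real.rpow_le_rpow_of_nonpos hlx h2 (by linarith)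
        have h4 : ((q : ℝ) + 1)⁻¹ ≤ x⁻¹ := inv_anti₀ (by linarith) hx.2.le
        have h5 : 0 ≤ ((q : ℝ) + 1)⁻¹ := by positivity
        have h6 : 0 ≤ (Real.log x) ^ (-ε - 1) := by positivity
        exact mul_le_mul h3 h4 h5 h6
      have h2 : ε * ((Real.log x) ^ (-ε - 1) * x⁻¹)
          = -(Real.log ((q : ℝ) + 1)) ^ (-ε) + (Real.log (q : ℝ)) ^ (-ε) := by
        rw [hxe]; ring
      have h3 : (Real.log ((q : ℝ) + 1)) ^ (-ε - 1) * ((q : ℝ) + 1)⁻¹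
          = ((q : ℝ) + 1) * (1 / (((q : ℝ) + 1) ^ 2 * (Real.log ((q : ℝ) + 1)) ^ (1 + ε))) := by
        have h4 : -ε - 1 = -(1 + ε) := by ring
        rw [h4, Real.rpow_neg hlq1.le]
        have : (Real.log ((q : ℝ) + 1)) ^ (1 + ε) ≠ 0 := (Real.rpow_pos_of_pos hlq1 _).ne'
        have : ((q : ℝ) + 1) ≠ 0 := by linarith
        field_simp
      have h4 : (Real.log ((q : ℝ) + 1)) ^ (-ε) = 1 / (Real.log ((q : ℝ) + 1)) ^ ε := by
        rw [Real.rpow_neg hlq1.le, one_div]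
      have h5 : (Real.log (q : ℝ)) ^ (-ε) = 1 / (Real.log (q : ℝ)) ^ ε := by
        rw [Real.rpow_neg hlq.le, one_div]
      rw [hcast, ← h3]
      rw [h4, h5] at h2
      have h6 : (Real.log ((q : ℝ) + 1)) ^ (-ε - 1) * ((q : ℝ) + 1)⁻¹
          ≤ (1 / ε) * (-(1 / (Real.log ((q : ℝ) + 1)) ^ ε) + 1 / (Real.log (q : ℝ)) ^ ε) := by
        rw [← h2]
        refine h1.trans (le_of_eq ?_)
        field_simp
      have h7 : (1 / ε) * (-(1 / (Real.log ((q : ℝ) + 1)) ^ ε) + 1 / (Real.log (q : ℝ)) ^ ε)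
          = (1 / ε) / (Real.log (q : ℝ)) ^ ε - (1 / ε) / (Real.log ((q : ℝ) + 1)) ^ ε := by ring
      rw [h7] at h6
      linarith
  rcases Nat.lt_or_ge Q Q0 with h | h
  · rw [Icc_eq_empty (by omega), sum_empty]
    have := hlogpos Q0 hQ0
    positivity
  · obtain ⟨n, rfl⟩ := Nat.exists_eq_add_of_le h
    refine (key n).trans ?_
    have := hlogpos (Q0 + n) (by omega)
    have : 0 ≤ (1 / ε) / (Real.log ((Q0 + n : ℕ) : ℝ)) ^ ε := by positivity
    linarith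

theorem average_full_range (hB : S_BADN) (hC : S_CNT) (hP : S_PERT) {d : ℕ} (hd : 2 ≤ d) {R : ℝ}
    (hR : 1 ≤ R) {ε : ℝ} (hε : 0 < ε) :
    ∃ C θ : ℝ, 0 < C ∧ 0 < θ ∧ ∀ c δ : ℝ, 0 < c → 0 < δ → ∀ H Q0 : ℕ, 22 ≤ H → 2 ≤ Q0 →
      (({ξ ∈ Avg.AlgNums d H R | ∃ (p : ℤ) (q : ℕ), Q0 ≤ q ∧
          (q : ℝ) ^ 2 * (Real.log (q : ℝ)) ^ (1 + ε) ≤ c * δ * (H : ℝ) ^ (d + 1) ∧
          |ξ - (p : ℝ) / q| ≤ c / ((q : ℝ) ^ 2 * (Real.log (q : ℝ)) ^ (1 + ε))}).ncard : ℝ)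
        ≤ C * (c / (Real.log (Q0 : ℝ)) ^ ε + δ ^ θ) * ((Avg.AlgNums d H R).ncard : ℝ) := by
  classical
  obtain ⟨C, θ, hC0, hθ, harb⟩ := arb hB hC hP (d := d) (by omega) hR
  set k : ℝ := (3 / 44 : ℝ) * (1 / 44) ^ (d + 1) with hk
  have hk0 : 0 < k := by positivity
  set R1 : ℝ := R + 1 with hR1def
  have hR1 : 1 ≤ R1 := by linarith
  have hR1pos : 0 < R1 := by linarith
  set C3 : ℝ := C * (3 * R1 * (1 + 1 / ε) + 1) / k with hC3
  have hC3pos : 0 < C3 := by positivity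
  refine ⟨C3 + 1, θ, by positivity, hθ, ?_⟩
  intro c δ hc hδ H Q0 hH hQ0
  have hHR : (22 : ℝ) ≤ H := by exact_mod_cast hH
  have hHpos : (0 : ℝ) < H := by linarith
  have hQ0R : (2 : ℝ) ≤ Q0 := by exact_mod_cast hQ0
  have hlog2 : 0 < Real.log 2 := Real.log_pos (by norm_num)
  have hlogQ0 : 0 < Real.log (Q0 : ℝ) := Real.log_pos (by linarith)
  have hδθ : 0 < δ ^ θ := Real.rpow_pos_of_pos hδ θ
  have hN0 : (0 : ℝ) ≤ ((Avg.AlgNums d H R).ncard : ℝ) := Nat.cast_nonneg _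
  set E : Set ℝ := {ξ ∈ Avg.AlgNums d H R | ∃ (p : ℤ) (q : ℕ), Q0 ≤ q ∧
          (q : ℝ) ^ 2 * (Real.log (q : ℝ)) ^ (1 + ε) ≤ c * δ * (H : ℝ) ^ (d + 1) ∧
          |ξ - (p : ℝ) / q| ≤ c / ((q : ℝ) ^ 2 * (Real.log (q : ℝ)) ^ (1 + ε))} with hE
  have hEsub : E ⊆ Avg.AlgNums d H R := Set.sep_subset _ _
  set W : ℕ → ℝ := fun q => (q : ℝ) ^ 2 * (Real.log (q : ℝ)) ^ (1 + ε) with hW
  have hWpos : ∀ q, 2 ≤ q → 0 < W q := by
    intro q hq
    have hqR : (2 : ℝ) ≤ q := by exact_mod_cast hq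
    have : 0 < Real.log (q : ℝ) := Real.log_pos (by linarith)
    simp only [hW]
    positivity
  have hWmono : ∀ q q' : ℕ, 2 ≤ q → q ≤ q' → W q ≤ W q' := by
    intro q q' hq hqq
    have hqR : (2 : ℝ) ≤ q := by exact_mod_cast hq
    have hqq' : (q : ℝ) ≤ q' := by exact_mod_cast hqq
    have h1 : 0 < Real.log (q : ℝ) := Real.log_pos (by linarith)
    have h2 : Real.log (q : ℝ) ≤ Real.log (q' : ℝ) := Real.log_le_log (by linarith) hqq'
    have h3 : (Real.log (q : ℝ)) ^ (1 + ε) ≤ (Real.log (q' : ℝ)) ^ (1 + ε) :=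
      Real.rpow_le_rpow h1.le h2 (by linarith)
    simp only [hW]
    gcongr
  rcases le_or_gt (W Q0) c with hbig | hsmall
  · -- trivial case
    have h1 : (E.ncard : ℝ) ≤ ((Avg.AlgNums d H R).ncard : ℝ) := by
      exact_mod_cast Set.ncard_le_ncard hEsub (Avg.algNums_finite d H R)
    have h2 : 1 ≤ c / (Real.log (Q0 : ℝ)) ^ ε := by
      rw [one_le_div (by positivity)]
      refine le_trans ?_ hbig
      simp only [hW]
      rw [Real.rpow_add hlogQ0, Real.rpow_one]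
      have h3 : 0 < (Real.log (Q0 : ℝ)) ^ ε := by positivity
      have h4 : 1 ≤ (Q0 : ℝ) ^ 2 * Real.log (Q0 : ℝ) := by
        have h8 : Real.log 2 ≤ Real.log (Q0 : ℝ) := Real.log_le_log (by norm_num) hQ0R
        have h9 := Real.log_two_gt_d9
        have h10 : (4 : ℝ) ≤ (Q0 : ℝ) ^ 2 := by nlinarith
        nlinarith
      nlinarith
    calc (E.ncard : ℝ) ≤ 1 * ((Avg.AlgNums d H R).ncard : ℝ) := by rw [one_mul]; exact h1
      _ ≤ (C3 + 1) * (c / (Real.log (Q0 : ℝ)) ^ ε + δ ^ θ) * ((Avg.AlgNums d H R).ncard : ℝ) := by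
          apply mul_le_mul_of_nonneg_right _ hN0
          nlinarith
  · set Q : ℕ := ⌈c * δ * (H : ℝ) ^ (d + 1) / (Real.log 2) ^ (1 + ε)⌉₊ with hQdef
    set TQ : Finset ℕ := (Icc Q0 Q).filter fun q => W q ≤ c * δ * (H : ℝ) ^ (d + 1) with hTQ
    set s : Finset (Σ _ : ℕ, ℤ) := TQ.sigma
      (fun q => Icc (-((⌊R1 * q⌋₊ : ℕ) : ℤ)) ((⌊R1 * q⌋₊ : ℕ) : ℤ)) with hs
    have hTQmem : ∀ q ∈ TQ, Q0 ≤ q ∧ W q ≤ c * δ * (H : ℝ) ^ (d + 1) := by
      intro q hq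
      rw [hTQ, mem_filter, mem_Icc] at hq
      exact ⟨hq.1.1, hq.2⟩
    obtain ⟨F, hFc, hFm⟩ := harb (Σ _ : ℕ, ℤ) s (fun i => (i.2 : ℝ) / (i.1 : ℝ))
      (fun i => c / W i.1) δ H hδ (by omega) (by
        rintro ⟨q, p⟩ hi
        rw [hs, mem_sigma] at hi
        obtain ⟨h1, h2⟩ := hTQmem q hi.1
        have h3 := hWpos q (hQ0.trans h1)
        have h4 := hWmono Q0 q hQ0 h1
        refine ⟨by positivity, ?_, ?_⟩
        · show c / W q ≤ 1
          rw [div_le_one h3]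
          linarith
        · show 1 ≤ δ * (c / W q) * (H : ℝ) ^ (d + 1)
          rw [show δ * (c / W q) * (H : ℝ) ^ (d + 1) = (c * δ * (H : ℝ) ^ (d + 1)) / W q by ring]
          rw [le_div_iff₀ h3]
          linarith)
    have hsum : ∑ i ∈ s, c / W i.1 ≤ 3 * R1 * (1 + 1 / ε) * (c / (Real.log (Q0 : ℝ)) ^ ε) := by
      rw [hs, Finset.sum_sigma]
      calc ∑ q ∈ TQ, ∑ _p ∈ Icc (-((⌊R1 * q⌋₊ : ℕ) : ℤ)) ((⌊R1 * q⌋₊ : ℕ) : ℤ), c / W q
          ≤ ∑ q ∈ TQ, (3 * R1 * c) * ((q : ℝ) * (1 / W q)) := by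
            apply Finset.sum_le_sum
            intro q hq
            obtain ⟨h1, -⟩ := hTQmem q hq
            have h3 := hWpos q (hQ0.trans h1)
            have hq1 : (1 : ℝ) ≤ q := by
              have : 1 ≤ q := by omega
              exact_mod_cast this
            rw [sum_const, nsmul_eq_mul, Int.card_Icc]
            have h2 : ((⌊R1 * q⌋₊ : ℕ) : ℝ) ≤ R1 * q := Nat.floor_le (by positivity)
            have h4 : (1 : ℝ) ≤ R1 * q := one_le_mul_of_one_le_of_one_le hR1 hq1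
            have h5 : (((((⌊R1 * q⌋₊ : ℕ) : ℤ) + 1 - (-((⌊R1 * q⌋₊ : ℕ) : ℤ))).toNat : ℕ) : ℝ)
                ≤ 3 * R1 * q := by
              have h6 : (((⌊R1 * q⌋₊ : ℕ) : ℤ) + 1 - (-((⌊R1 * q⌋₊ : ℕ) : ℤ))).toNat
                  = 2 * ⌊R1 * q⌋₊ + 1 := by omega
              rw [h6]
              push_cast
              linarith
            calc _ ≤ (3 * R1 * q) * (c / W q) := mul_le_mul_of_nonneg_right h5 (by positivity)
              _ = _ := by ring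
        _ = (3 * R1 * c) * ∑ q ∈ TQ, ((q : ℝ) * (1 / W q)) := by rw [Finset.mul_sum]
        _ ≤ (3 * R1 * c) * ∑ q ∈ Icc Q0 Q, ((q : ℝ) * (1 / W q)) := by
            apply mul_le_mul_of_nonneg_left _ (by positivity)
            apply Finset.sum_le_sum_of_subset_of_nonneg (filter_subset _ _)
            intro q hq _
            rw [mem_Icc] at hq
            have := hWpos q (hQ0.trans hq.1)
            positivity
        _ ≤ (3 * R1 * c) * ((1 + 1 / ε) / (Real.log (Q0 : ℝ)) ^ ε) :=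
            mul_le_mul_of_nonneg_left (tail_sum hε hQ0 Q) (by positivity)
        _ = _ := by ring
    have hsub : E ⊆ (F : Set ℝ) := by
      rintro ξ ⟨hξA, p, q, hq0, hqH, hle⟩
      apply hFm ξ hξA
      have hq2 : 2 ≤ q := hQ0.trans hq0
      have hqR : (2 : ℝ) ≤ q := by exact_mod_cast hq2
      have hqpos : (0 : ℝ) < q := by linarith
      have hWq := hWpos q hq2
      refine ⟨⟨q, p⟩, ?_, hle⟩
      rw [hs, mem_sigma, hTQ, mem_filter, mem_Icc]
      have hr1 : c / W q ≤ 1 := by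
        rw [div_le_one hWq]
        have := hWmono Q0 q hQ0 hq0
        linarith
      have hpq : |(p : ℝ) / q| ≤ R1 := by
        have h4 : |(p : ℝ) / q| ≤ |ξ| + |ξ - (p : ℝ) / q| := by
          have h5 := abs_sub_abs_le_abs_sub ((p : ℝ) / q) ξ
          rw [abs_sub_comm ((p : ℝ) / q) ξ] at h5
          linarith
        have h6 := hξA.1
        have h7 : |ξ - (p : ℝ) / q| ≤ c / W q := hle
        linarith
      refine ⟨⟨⟨hq0, ?_⟩, hqH⟩, ?_⟩
      · have h1 : (q : ℝ) * (Real.log 2) ^ (1 + ε) ≤ W q := by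
          have h2 : (Real.log 2) ^ (1 + ε) ≤ (Real.log (q : ℝ)) ^ (1 + ε) :=
            Real.rpow_le_rpow hlog2.le (Real.log_le_log (by norm_num) hqR) (by linarith)
          have h3 : (q : ℝ) ≤ (q : ℝ) ^ 2 := by nlinarith
          simp only [hW]
          gcongr
        have h4 : (q : ℝ) ≤ c * δ * (H : ℝ) ^ (d + 1) / (Real.log 2) ^ (1 + ε) := by
          rw [le_div_iff₀ (by positivity)]
          exact h1.trans hqH
        exact Nat.cast_le.mp (h4.trans (Nat.le_ceil _))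
      · have h1 : |(p : ℝ)| ≤ R1 * q := by
          have h7 : |(p : ℝ)| = |(p : ℝ) / q| * q := by
            rw [abs_div, abs_of_pos hqpos, div_mul_cancel₀ _ hqpos.ne']
          rw [h7]
          exact mul_le_mul_of_nonneg_right hpq hqpos.le
        have h2 : (p.natAbs : ℝ) ≤ R1 * q := by
          rw [Nat.cast_natAbs, Int.cast_abs]; exact h1
        have h3 : p.natAbs ≤ ⌊R1 * q⌋₊ := Nat.le_floor h2
        rw [mem_Icc]
        show -((⌊R1 * q⌋₊ : ℕ) : ℤ) ≤ p ∧ p ≤ ((⌊R1 * q⌋₊ : ℕ) : ℤ)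
        omega
    have h5 := Set.ncard_le_ncard hsub F.finite_toSet
    rw [Set.ncard_coe_finset] at h5
    have h6 := Avg.card_algNums hd hH hR
    have hx : 0 < c / (Real.log (Q0 : ℝ)) ^ ε := by positivity
    calc (E.ncard : ℝ) ≤ (F.card : ℝ) := by exact_mod_cast h5
      _ ≤ C * (∑ i ∈ s, c / W i.1 + δ ^ θ) * (H : ℝ) ^ (d + 1) := hFc
      _ ≤ C * (3 * R1 * (1 + 1 / ε) * (c / (Real.log (Q0 : ℝ)) ^ ε) + δ ^ θ) * (H : ℝ) ^ (d + 1) := by
          gcongr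
      _ ≤ C * ((3 * R1 * (1 + 1 / ε) + 1) * (c / (Real.log (Q0 : ℝ)) ^ ε + δ ^ θ))
            * (H : ℝ) ^ (d + 1) := by
          have h8 : 3 * R1 * (1 + 1 / ε) * (c / (Real.log (Q0 : ℝ)) ^ ε) + δ ^ θ
              ≤ (3 * R1 * (1 + 1 / ε) + 1) * (c / (Real.log (Q0 : ℝ)) ^ ε + δ ^ θ) := by
            have h9 : 0 ≤ 3 * R1 * (1 + 1 / ε) * δ ^ θ := by positivity
            nlinarith
          gcongr
      _ = C3 * (c / (Real.log (Q0 : ℝ)) ^ ε + δ ^ θ) * (k * (H : ℝ) ^ (d + 1)) := by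
          rw [hC3]; field_simp
      _ ≤ C3 * (c / (Real.log (Q0 : ℝ)) ^ ε + δ ^ θ) * ((Avg.AlgNums d H R).ncard : ℝ) := by
          gcongr
      _ ≤ (C3 + 1) * (c / (Real.log (Q0 : ℝ)) ^ ε + δ ^ θ) * ((Avg.AlgNums d H R).ncard : ℝ) := by
          have h10 : C3 ≤ C3 + 1 := by linarith
          gcongr

end Pool.Agent.Helper41.LF
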