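import Mathlib
import Pool.Agent.Helper41.LF.GoalsB

set_option autoImplicit false

namespace Pool.Agent.Helper41.LF

theorem pert_own : S_PERT := by
  intro d l Q τ τ' x y hQ hx hy hN hτ i
  obtain ⟨s, hs⟩ := hN i
  refine ⟨s, ?_⟩
  have h1 : |x ^ ((i : ℕ) + 1) - y ^ ((i : ℕ) + 1)| ≤ |x - y| * ((i : ℕ) + 1 : ℕ) * max |x| |y| ^ ((i : ℕ) + 1 - 1) :=
    abs_pow_sub_pow_le x y ((i : ℕ) + 1)
  have hid : (i : ℕ) + 1 ≤ d := i.2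
  have h2 : max |x| |y| ^ ((i : ℕ) + 1 - 1) ≤ Q ^ d := by
    calc max |x| |y| ^ ((i : ℕ) + 1 - 1) ≤ Q ^ ((i : ℕ) + 1 - 1) :=
          pow_le_pow_left₀ (le_max_of_le_left (abs_nonneg _)) (max_le hx hy) _
      _ ≤ Q ^ d := pow_le_pow_right₀ hQ (by omega)
  have h3 : (((i : ℕ) + 1 : ℕ) : ℝ) ≤ d := by exact_mod_cast hid
  have h4 : |x ^ ((i : ℕ) + 1) - y ^ ((i : ℕ) + 1)| ≤ d * Q ^ d * |x - y| := by
    calc |x ^ ((i : ℕ) + 1) - y ^ ((i : ℕ) + 1)|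
        ≤ |x - y| * ((i : ℕ) + 1 : ℕ) * max |x| |y| ^ ((i : ℕ) + 1 - 1) := h1
      _ ≤ |x - y| * d * Q ^ d := by gcongr
      _ = _ := by ring
  have h5 : (l : ℝ) * x ^ ((i : ℕ) + 1) - s
      = ((l : ℝ) * y ^ ((i : ℕ) + 1) - s) + l * (x ^ ((i : ℕ) + 1) - y ^ ((i : ℕ) + 1)) := by ring
  rw [h5]
  refine (abs_add_le _ _).trans ?_
  rw [abs_mul, abs_of_nonneg (Nat.cast_nonneg l : (0 : ℝ) ≤ (l : ℝ))]
  have h6 : (l : ℝ) * |x ^ ((i : ℕ) + 1) - y ^ ((i : ℕ) + 1)| ≤ (l : ℝ) * (d * Q ^ d * |x - y|) := by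
    gcongr
  linarith

end Pool.Agent.Helper41.LF
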