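import Mathlib
import Pool.Agent.Helper41.LF.Full
import Pool.Agent.Helper4.LF.NZM
import Pool.Agent.Helper83.LF.TUP
import Pool.Agent.Helper55.LF.REL
import Pool.Agent.Helper88.LF.LAP
import Pool.Agent.Helper69.LF.ONF
import Pool.Agent.Helper35.LF.ONP
import Pool.Agent.Helper3.LF.POL
import Pool.Agent.Helper59.LF.PSI
import Pool.Agent.Helper39.LF.LAG
import Pool.Agent.Helper46.LF.SPC
import Pool.Agent.Helper38.LF.REM
import Pool.Agent.Helper50.LF.GRW
import Pool.Agent.Helper75.LF.NDC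
import Pool.Agent.Helper81.LF.MRK
import Pool.Agent.Helper87.LF.MEAS
import Pool.Agent.Helper15.LF.CNT
import Pool.Agent.Helper41.LF.Pert
import Pool.Agent.Helper13.LF.CELL
import Pool.Agent.Helper40.LF.DYAD
import Pool.Agent.Helper58.LF.BADN

/-! Assembly of project LF. -/

set_option autoImplicit false

namespace Pool.Agent.Helper41.LF

theorem NZM : S_NZM := Pool.Agent.Helper4.LF.thm_NZM
theorem REL : S_REL := Pool.Agent.Helper55.LF.thm_REL NZM
theorem ONP : S_ONP := Pool.Agent.Helper35.LF.thm_ONP NZM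
theorem PSI : S_PSI := thm_PSI thm_TUP REL Pool.Agent.Helper88.LF.thm_LAP thm_ONF ONP
  Pool.Agent.Helper3.LF.thm_POL
theorem LAG : S_LAG := Pool.Agent.Helper39.LF.thm_LAG
theorem REM : S_REM := thm_REM LAG thm_SPC
theorem GRW : S_GRW := Pool.Agent.Helper50.LF.thm_GRW LAG
theorem NDC : S_NDC := Pool.Agent.Helper75.LF.thm_NDC
theorem MEAS : S_MEAS := thm_MEAS PSI REM GRW NDC thm_MRK
theorem CELL : S_CELL := thm_CELL MEAS pert_own
theorem DYAD : S_DYAD := thm_DYAD CELL thm_CNT pert_own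
theorem BADN : S_BADN := Pool.Agent.Helper58.LF.thm_BADN DYAD

end Pool.Agent.Helper41.LF
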