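import Mathlib
import Pool.Agent.Helper41.LF.GoalsB

/-! Lang's inequality on average over algebraic numbers, full range (assembly from `S_UPP`). -/

set_option autoImplicit false

namespace Pool.Agent.Helper41.LF

open MeasureTheory Finset Pool.Agent.Helper92

theorem average_full (hU : S_UPP) {d : ℕ} (hd : 2 ≤ d) {R : ℝ} (hR : 1 ≤ R) {ε : ℝ} (hε : 0 < ε) :
    ∃ C : ℝ, ∀ c : ℝ, 0 < c → ∃ δ : ℝ, 0 < δ ∧ ∀ H : ℕ, 22 ≤ H →
      (({ξ ∈ Avg.AlgNums d H R | ∃ (p : ℤ) (q : ℕ), 2 ≤ q ∧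
          (q : ℝ) ^ 2 * (Real.log (q : ℝ)) ^ (1 + ε) ≤ δ * (H : ℝ) ^ (d + 1) ∧
          |ξ - (p : ℝ) / q| ≤ c / ((q : ℝ) ^ 2 * (Real.log (q : ℝ)) ^ (1 + ε))}).ncard : ℝ)
        ≤ C * c * ((Avg.AlgNums d H R).ncard : ℝ) := by
  obtain ⟨C, hC0, hC⟩ := hU d R ε hd hR hε
  set k : ℝ := (3 / 44 : ℝ) * (1 / 44) ^ (d + 1) with hk
  have hk0 : 0 < k := by positivity
  refine ⟨C / k + 1, ?_⟩
  intro c hc
  rcases le_or_gt c 1 with hc1 | hc1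
  · obtain ⟨δ, hδ, hH⟩ := hC c hc hc1
    refine ⟨δ, hδ, fun H hH22 => ?_⟩
    obtain ⟨F, hF, hF2⟩ := hH H (by omega)
    have hsub : {ξ ∈ Avg.AlgNums d H R | ∃ (p : ℤ) (q : ℕ), 2 ≤ q ∧
          (q : ℝ) ^ 2 * (Real.log (q : ℝ)) ^ (1 + ε) ≤ δ * (H : ℝ) ^ (d + 1) ∧
          |ξ - (p : ℝ) / q| ≤ c / ((q : ℝ) ^ 2 * (Real.log (q : ℝ)) ^ (1 + ε))} ⊆ (F : Set ℝ) := by
      rintro ξ ⟨h1, h4⟩
      exact hF2 ξ h1 h4
    have h5 := Set.ncard_le_ncard hsub F.finite_toSet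
    rw [Set.ncard_coe_finset] at h5
    have h6 := Avg.card_algNums hd hH22 hR
    calc _ ≤ (F.card : ℝ) := by exact_mod_cast h5
      _ ≤ C * c * (H : ℝ) ^ (d + 1) := hF
      _ = C / k * c * (k * (H : ℝ) ^ (d + 1)) := by field_simp
      _ ≤ C / k * c * ((Avg.AlgNums d H R).ncard : ℝ) := by gcongr
      _ ≤ (C / k + 1) * c * ((Avg.AlgNums d H R).ncard : ℝ) := by
          have h7 : 0 ≤ c * ((Avg.AlgNums d H R).ncard : ℝ) := by positivity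
          nlinarith
  · refine ⟨1, one_pos, fun H _ => ?_⟩
    have h1 : ({ξ ∈ Avg.AlgNums d H R | ∃ (p : ℤ) (q : ℕ), 2 ≤ q ∧
          (q : ℝ) ^ 2 * (Real.log (q : ℝ)) ^ (1 + ε) ≤ 1 * (H : ℝ) ^ (d + 1) ∧
          |ξ - (p : ℝ) / q| ≤ c / ((q : ℝ) ^ 2 * (Real.log (q : ℝ)) ^ (1 + ε))}).ncard
        ≤ (Avg.AlgNums d H R).ncard :=
      Set.ncard_le_ncard (Set.sep_subset _ _) (Avg.algNums_finite d H R)
    have h2 : (1 : ℝ) ≤ (C / k + 1) * c := by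
      have : 0 ≤ C / k := by positivity
      nlinarith
    calc _ ≤ ((Avg.AlgNums d H R).ncard : ℝ) := by exact_mod_cast h1
      _ = 1 * ((Avg.AlgNums d H R).ncard : ℝ) := (one_mul _).symm
      _ ≤ _ := by gcongr

end Pool.Agent.Helper41.LF
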